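import Pool.Agent.H5.PNT.WienerIkehara

/-!
The prime number theorem, and the prime number theorem in arithmetic progressions (fixed modulus).
-/

namespace Pool.Agent.H5.PNT

open Filter Topology Real Finset
open ArithmeticFunction ArithmeticFunction.vonMangoldt

theorem sum_vonMangoldt_le (n : ℕ) : ∑ k ∈ Icc 1 n, ArithmeticFunction.vonMangoldt k ≤
    (Real.log 4 + 4) * n := by
  have h := Chebyshev.psi_le_const_mul_self (x := (n : ℝ)) (Nat.cast_nonneg n)
  unfold Chebyshev.psi at h
  rw [Nat.floor_natCast] at h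
  have : Ioc 0 n = Icc 1 n := by ext k; simp [Nat.succ_le_iff]
  rwa [this] at h

/-- Prime number theorem in arithmetic progressions, for the von Mangoldt function. -/
theorem psi_ap (q : ℕ) [NeZero q] (a : ZMod q) (ha : IsUnit a) :
    Tendsto (fun x : ℝ => (∑ k ∈ Icc 1 ⌊x⌋₊, residueClass a k) / x) atTop
      (𝓝 ((q.totient : ℝ)⁻¹)) := by
  apply wiener_ikehara (residueClass a) (residueClass_nonneg a) (Real.log 4 + 4) _ _
    (by positivity) (LFunctionResidueClassAux a) (continuousOn_LFunctionResidueClassAux a)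
  · intro s hs
    rw [eqOn_LFunctionResidueClassAux ha hs]
    push_cast
    rfl
  · intro n
    refine le_trans (sum_le_sum fun k _ => residueClass_le a k) (sum_vonMangoldt_le n)

/-- the primes up to `x` in the residue class `a` -/
noncomputable def primesIn (q : ℕ) (a : ZMod q) (x : ℝ) : Finset ℕ :=
  (Icc 1 ⌊x⌋₊).filter (fun n => n.Prime ∧ (n : ZMod q) = a)

theorem theta_ap (q : ℕ) [NeZero q] (a : ZMod q) (ha : IsUnit a) :
    Tendsto (fun x : ℝ => (∑ p ∈ primesIn q a x, Real.log p) / x) atTop
      (𝓝 ((q.totient : ℝ)⁻¹)) := by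
  obtain ⟨C, hC⟩ := Chebyshev.psi_sub_theta_le_mul_sqrt
  have h1 := psi_ap q a ha
  -- the difference
  have hdiff : Tendsto (fun x : ℝ => (∑ k ∈ Icc 1 ⌊x⌋₊, residueClass a k -
      ∑ p ∈ primesIn q a x, Real.log p) / x) atTop (𝓝 0) := by
    have hup : Tendsto (fun x : ℝ => C * (Real.sqrt x / x)) atTop (𝓝 (C * 0)) := by
      apply Tendsto.const_mul
      have : Tendsto (fun x : ℝ => (Real.sqrt x)⁻¹) atTop (𝓝 0) :=
        tendsto_inv_atTop_zero.comp Real.tendsto_sqrt_atTop
      refine this.congr' ?_
      filter_upwards [eventually_gt_atTop 0] with x hx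
      rw [Real.sqrt_div_self', one_div]
    rw [mul_zero] at hup
    have hrw : ∀ x : ℝ, ∑ k ∈ Icc 1 ⌊x⌋₊, residueClass a k - ∑ p ∈ primesIn q a x, Real.log p =
        ∑ k ∈ (Icc 1 ⌊x⌋₊).filter (fun n => ¬ n.Prime), residueClass a k := by
      intro x
      rw [← sum_filter_add_sum_filter_not (Icc 1 ⌊x⌋₊) (fun n => n.Prime)]
      have : ∑ k ∈ (Icc 1 ⌊x⌋₊).filter (fun n => n.Prime), residueClass a k =
          ∑ p ∈ primesIn q a x, Real.log p := by
        unfold primesIn
        rw [← filter_filter, sum_filter (s := (Icc 1 ⌊x⌋₊).filter (fun n => n.Prime))]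
        apply sum_congr rfl
        intro p hp
        rw [mem_filter] at hp
        unfold residueClass
        rw [Set.indicator_apply]
        simp only [Set.mem_setOf_eq]
        rw [ArithmeticFunction.vonMangoldt_apply_prime hp.2]
      rw [this]
      ring
    refine squeeze_zero' ?_ ?_ hup
    · filter_upwards [eventually_gt_atTop 0] with x hx
      rw [hrw]
      apply div_nonneg _ hx.le
      exact sum_nonneg fun k _ => residueClass_nonneg a k
    · filter_upwards [eventually_gt_atTop 0] with x hx
      rw [hrw, ← mul_div_assoc]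
      apply div_le_div_of_nonneg_right _ hx.le
      refine le_trans ?_ (hC x)
      rw [Chebyshev.psi_sub_theta_eq_sum_not_prime]
      have hI : Ioc 0 ⌊x⌋₊ = Icc 1 ⌊x⌋₊ := by ext k; simp [Nat.succ_le_iff]
      rw [hI]
      exact sum_le_sum fun k _ => residueClass_le a k
  have h2 := h1.sub hdiff
  rw [sub_zero] at h2
  refine h2.congr ?_
  intro x
  ring

/-- from logarithmic weights to counting -/
theorem count_of_theta (P : ℝ → Finset ℕ) (hP : ∀ x, ∀ p ∈ P x, 2 ≤ p ∧ (p : ℝ) ≤ x) (A : ℝ)
    (h : Tendsto (fun x : ℝ => (∑ p ∈ P x, Real.log p) / x) atTop (𝓝 A)) :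
    Tendsto (fun x : ℝ => ((P x).card : ℝ) * Real.log x / x) atTop (𝓝 A) := by
  -- upper comparison
  have hup : Tendsto (fun x : ℝ => (Real.log x)⁻¹ + (∑ p ∈ P x, Real.log p) / x *
      (Real.log x / (Real.log x - 2 * Real.log (Real.log x)))) atTop (𝓝 (0 + A * 1)) := by
    apply Tendsto.add
    · exact tendsto_inv_atTop_zero.comp Real.tendsto_log_atTop
    · apply h.mul
      have h1 : Tendsto (fun y : ℝ => y / (y - 2 * Real.log y)) atTop (𝓝 1) := by
        have h2 : Tendsto (fun y : ℝ => Real.log y / y) atTop (𝓝 0) := by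
          have := Real.isLittleO_log_id_atTop.tendsto_div_nhds_zero
          simpa using this
        have h3 : Tendsto (fun y : ℝ => 1 / (1 - 2 * (Real.log y / y))) atTop (𝓝 (1 / (1 - 2 * 0))) := by
          apply Tendsto.div tendsto_const_nhds
          · exact (h2.const_mul 2).const_sub 1
          · norm_num
        rw [mul_zero, sub_zero, div_one] at h3
        refine h3.congr' ?_
        filter_upwards [eventually_gt_atTop 0] with y hy
        rw [show 1 - 2 * (Real.log y / y) = (y - 2 * Real.log y) / y by field_simp, one_div_div]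
      exact h1.comp Real.tendsto_log_atTop
  rw [zero_add, mul_one] at hup
  refine tendsto_of_tendsto_of_tendsto_of_le_of_le' h hup ?_ ?_
  · filter_upwards [eventually_gt_atTop 1] with x hx
    apply div_le_div_of_nonneg_right _ (by linarith)
    rw [← nsmul_eq_mul]
    apply sum_le_card_nsmul
    intro p hp
    obtain ⟨h1, h2⟩ := hP x p hp
    exact Real.log_le_log (by exact_mod_cast (by omega : 0 < p)) h2
  · -- eventually log x > 2 log log x > 0
    have hev : ∀ᶠ x : ℝ in atTop, 0 < Real.log x - 2 * Real.log (Real.log x) := by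
      have h2 : Tendsto (fun y : ℝ => Real.log y / y) atTop (𝓝 0) := by
        have := Real.isLittleO_log_id_atTop.tendsto_div_nhds_zero
        simpa using this
      have h3 := (h2.eventually (gt_mem_nhds (by norm_num : (0 : ℝ) < 1 / 2))).and
        (eventually_gt_atTop 0)
      have h4 : ∀ᶠ y : ℝ in atTop, 0 < y - 2 * Real.log y := by
        filter_upwards [h3] with y hy
        have := (div_lt_iff₀ hy.2).mp hy.1
        linarith
      exact Real.tendsto_log_atTop.eventually h4
    filter_upwards [hev, eventually_gt_atTop (Real.exp 1)] with x hx hxe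
    have hx0 : 0 < x := lt_trans (Real.exp_pos 1) hxe
    have hlog1 : 1 < Real.log x := by
      rw [Real.lt_log_iff_exp_lt hx0]; exact hxe
    have hlog0 : 0 < Real.log x := by linarith
    set y : ℝ := x / (Real.log x) ^ 2 with hy
    have hy0 : 0 < y := by positivity
    have hlogy : Real.log y = Real.log x - 2 * Real.log (Real.log x) := by
      rw [hy, Real.log_div hx0.ne' (by positivity), Real.log_pow]
      push_cast
      ring
    have hlogy0 : 0 < Real.log y := by rw [hlogy]; exact hx
    have hcard : ((P x).card : ℝ) ≤ y + (∑ p ∈ P x, Real.log p) / Real.log y := by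
      rw [← card_filter_add_card_filter_not (s := P x) (fun p : ℕ => (p : ℝ) ≤ y)]
      push_cast
      apply add_le_add
      · have h1 : (P x).filter (fun p : ℕ => (p : ℝ) ≤ y) ⊆ Icc 1 ⌊y⌋₊ := by
          intro p hp
          rw [mem_filter] at hp
          rw [mem_Icc]
          exact ⟨by have := (hP x p hp.1).1; omega, Nat.le_floor hp.2⟩
        calc (((P x).filter (fun p : ℕ => (p : ℝ) ≤ y)).card : ℝ) ≤ ((Icc 1 ⌊y⌋₊).card : ℝ) := by
              exact_mod_cast card_le_card h1
          _ = (⌊y⌋₊ : ℝ) := by rw [Nat.card_Icc]; simp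
          _ ≤ y := Nat.floor_le hy0.le
      · rw [le_div_iff₀ hlogy0]
        calc (((P x).filter (fun p : ℕ => ¬ (p : ℝ) ≤ y)).card : ℝ) * Real.log y
            = ∑ p ∈ (P x).filter (fun p : ℕ => ¬ (p : ℝ) ≤ y), Real.log y := by
              rw [sum_const, nsmul_eq_mul]
          _ ≤ ∑ p ∈ (P x).filter (fun p : ℕ => ¬ (p : ℝ) ≤ y), Real.log p := by
              apply sum_le_sum
              intro p hp
              rw [mem_filter] at hp
              apply Real.log_le_log hy0
              exact (not_le.mp hp.2).le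
          _ ≤ ∑ p ∈ P x, Real.log p := by
              apply sum_le_sum_of_subset_of_nonneg (filter_subset _ _)
              intro p hp _
              apply Real.log_nonneg
              exact_mod_cast (by have := (hP x p hp).1; omega : 1 ≤ p)
    calc ((P x).card : ℝ) * Real.log x / x ≤
        (y + (∑ p ∈ P x, Real.log p) / Real.log y) * Real.log x / x := by gcongr
      _ = _ := by
          rw [hlogy, hy]
          field_simp

/-- Prime number theorem in arithmetic progressions. -/
theorem pi_ap (q : ℕ) [NeZero q] (a : ZMod q) (ha : IsUnit a) :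
    Tendsto (fun x : ℝ => ((primesIn q a x).card : ℝ) * Real.log x / x) atTop
      (𝓝 ((q.totient : ℝ)⁻¹)) := by
  apply count_of_theta (primesIn q a) _ _ (theta_ap q a ha)
  intro x p hp
  unfold primesIn at hp
  rw [mem_filter, mem_Icc] at hp
  refine ⟨hp.2.1.two_le, ?_⟩
  have hx : 0 ≤ x := by
    by_contra hlt
    push Not at hlt
    rw [Nat.floor_of_nonpos hlt.le] at hp
    omega
  exact (Nat.le_floor_iff hx).mp hp.1.2

theorem primesIn_one (x : ℝ) (a : ZMod 1) : primesIn 1 a x = (Icc 1 ⌊x⌋₊).filter Nat.Prime := by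
  unfold primesIn
  apply filter_congr
  intro n _
  have : (n : ZMod 1) = a := Subsingleton.elim _ _
  simp [this]

/-- **Prime number theorem**, `θ` form. -/
theorem theta_tendsto : Tendsto (fun x : ℝ => Chebyshev.theta x / x) atTop (𝓝 1) := by
  have h := theta_ap 1 (1 : ZMod 1) isUnit_one
  rw [Nat.totient_one, Nat.cast_one, inv_one] at h
  refine h.congr ?_
  intro x
  rw [primesIn_one]
  unfold Chebyshev.theta
  have : Ioc 0 ⌊x⌋₊ = Icc 1 ⌊x⌋₊ := by ext k; simp [Nat.succ_le_iff]
  rw [this]

/-- **Prime number theorem**, `ψ` form. -/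
theorem psi_tendsto : Tendsto (fun x : ℝ => Chebyshev.psi x / x) atTop (𝓝 1) := by
  have h := psi_ap 1 (1 : ZMod 1) isUnit_one
  rw [Nat.totient_one, Nat.cast_one, inv_one] at h
  refine h.congr ?_
  intro x
  unfold Chebyshev.psi
  have : Ioc 0 ⌊x⌋₊ = Icc 1 ⌊x⌋₊ := by ext k; simp [Nat.succ_le_iff]
  rw [this]
  congr 1
  apply sum_congr rfl
  intro n _
  unfold residueClass
  rw [Set.indicator_apply, if_pos]
  exact Subsingleton.elim _ _

/-- **Prime number theorem**. -/
theorem pi_tendsto : Tendsto (fun x : ℝ => (Nat.primeCounting ⌊x⌋₊ : ℝ) * Real.log x / x)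
    atTop (𝓝 1) := by
  have h := pi_ap 1 (1 : ZMod 1) isUnit_one
  rw [Nat.totient_one, Nat.cast_one, inv_one] at h
  refine h.congr ?_
  intro x
  rw [primesIn_one]
  congr 3
  rw [Nat.primeCounting, Nat.primeCounting', Nat.count_eq_card_filter_range]
  congr 1
  ext p
  simp only [mem_filter, mem_Icc, mem_range]
  constructor
  · rintro ⟨⟨_, h2⟩, h3⟩
    exact ⟨by omega, h3⟩
  · rintro ⟨h1, h2⟩
    exact ⟨⟨h2.one_lt.le, by omega⟩, h2⟩

end Pool.Agent.H5.PNT
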