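import Pool.Agent.H5.PNT.Kernel

/-!
The Fourier-analytic core of the Wiener-Ikehara theorem.
-/

namespace Pool.Agent.H5.PNT

open MeasureTheory Filter Topology Real Set
open scoped FourierTransform

theorem fourier_continuous (f : ℝ → ℂ) (hf : Integrable f) : Continuous (𝓕 f) :=
  VectorFourier.fourierIntegral_continuous Real.continuous_fourierChar continuous_inner hf

theorem K_continuous : Continuous K := by
  have hc := fourier_continuous (fun t => ((tri 1 t : ℝ) : ℂ)) (tri_integrable 1 one_pos).ofReal
  have h : K = fun x => (𝓕 (fun t => ((tri 1 t : ℝ) : ℂ)) x).re := by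
    funext x
    rw [fourier_tri 1 one_pos]
    simp
  rw [h]
  exact Complex.continuous_re.comp hc

theorem K_integrable : Integrable K := by
  apply (integrable_inv_one_add_sq.const_mul 2).mono K_continuous.aestronglyMeasurable
  filter_upwards with x
  rw [Real.norm_of_nonneg (K_nonneg x)]
  exact (K_le x).trans (le_abs_self _)

theorem integral_K_pos : 0 < ∫ x, K x := by
  rw [integral_pos_iff_support_of_nonneg K_nonneg K_integrable]
  exact (isOpen_ne_fun K_continuous continuous_const).measure_pos volume ⟨0, by simp [K_zero]⟩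

theorem integral_smul_flip (f g : ℝ → ℂ) (hf : Integrable f) (hg : Integrable g) :
    ∫ t, 𝓕 f t * g t = ∫ u, f u * 𝓕 g u := by
  have := VectorFourier.integral_fourierIntegral_smul_eq_flip (L := innerₗ ℝ) (μ := volume)
    (ν := volume) Real.continuous_fourierChar continuous_inner hf hg
  simpa using! this

/-- the identity for `ε > 0` -/
theorem identity_eps (b : ℝ → ℝ) (hb : Measurable b) (B : ℝ) (hB : ∀ u, |b u| ≤ B)
    (L : ℝ) (hL : 0 < L) (v ε : ℝ) (hε : 0 < ε) :
    ∫ t : ℝ, (∫ u in Ioi (0 : ℝ), (b u : ℂ) * Complex.exp (-(ε + 2 * π * t * Complex.I) * u)) *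
      (Complex.exp (2 * π * v * t * Complex.I) * (tri L t : ℂ)) =
    ((∫ u in Ioi (0 : ℝ), b u * Real.exp (-ε * u) * (L * K (L * (u - v))) : ℝ) : ℂ) := by
  set f : ℝ → ℂ := (Ioi (0 : ℝ)).indicator (fun u => ((b u * Real.exp (-ε * u) : ℝ) : ℂ)) with hf
  set g : ℝ → ℂ := fun t => Complex.exp (2 * π * v * t * Complex.I) * (tri L t : ℂ) with hg
  have hfi : Integrable f := by
    rw [hf, integrable_indicator_iff measurableSet_Ioi]
    have h1 : IntegrableOn (fun x : ℝ => B * Real.exp (-ε * x)) (Ioi 0) :=
      (exp_neg_integrableOn_Ioi 0 hε).const_mul B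
    refine Integrable.mono (show Integrable _ (volume.restrict _) from h1) ?_ ?_
    · apply Measurable.aestronglyMeasurable
      apply Complex.measurable_ofReal.comp
      exact hb.mul (by fun_prop)
    · filter_upwards with u
      rw [Complex.norm_real, norm_mul, norm_mul]
      have h2 : ‖b u‖ ≤ ‖B‖ := (hB u).trans (le_abs_self B)
      gcongr
  have hgi : Integrable g := by
    have h1 : Integrable (fun t => ((tri L t : ℝ) : ℂ)) := (tri_integrable L hL).ofReal
    apply h1.mono
    · apply Continuous.aestronglyMeasurable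
      have := tri_continuous L
      fun_prop
    · filter_upwards with t
      rw [hg]
      simp only
      rw [norm_mul, show (2 * (π : ℂ) * v * t * Complex.I) = ((2 * π * v * t : ℝ) : ℂ) * Complex.I by
        push_cast; ring, Complex.norm_exp_ofReal_mul_I, one_mul]
  have h1 := integral_smul_flip f g hfi hgi
  have hFf : ∀ t : ℝ, 𝓕 f t =
      ∫ u in Ioi (0 : ℝ), (b u : ℂ) * Complex.exp (-(ε + 2 * π * t * Complex.I) * u) := by
    intro t
    rw [Real.fourier_real_eq_integral_exp_smul, hf]
    have h2 : ∀ u : ℝ, Complex.exp (((-2 * π * u * t : ℝ) : ℂ) * Complex.I) •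
        (Ioi (0 : ℝ)).indicator (fun u => ((b u * Real.exp (-ε * u) : ℝ) : ℂ)) u =
        (Ioi (0 : ℝ)).indicator (fun u =>
          (b u : ℂ) * Complex.exp (-(ε + 2 * π * t * Complex.I) * u)) u := by
      intro u
      by_cases hu : u ∈ Ioi (0 : ℝ)
      · rw [indicator_of_mem hu, indicator_of_mem hu, smul_eq_mul]
        push_cast
        rw [mul_left_comm, ← Complex.exp_add]
        congr 2
        ring
      · rw [indicator_of_notMem hu, indicator_of_notMem hu, smul_zero]
    simp_rw [h2]
    rw [integral_indicator measurableSet_Ioi]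
  have hFg : ∀ u : ℝ, 𝓕 g u = ((L * K (L * (u - v)) : ℝ) : ℂ) := by
    intro u
    rw [← fourier_tri L hL, Real.fourier_real_eq_integral_exp_smul,
      Real.fourier_real_eq_integral_exp_smul]
    apply integral_congr_ae
    filter_upwards with t
    rw [hg]
    simp only [smul_eq_mul]
    rw [← mul_assoc, ← Complex.exp_add]
    congr 2
    push_cast
    ring
  simp_rw [hFf, hFg] at h1
  rw [hg] at h1
  rw [h1, ← integral_complex_ofReal, ← integral_indicator measurableSet_Ioi]
  apply integral_congr_ae
  filter_upwards with u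
  rw [hf]
  by_cases hu : u ∈ Ioi (0 : ℝ)
  · rw [indicator_of_mem hu, indicator_of_mem hu]
    push_cast
    ring
  · rw [indicator_of_notMem hu, indicator_of_notMem hu, zero_mul]

theorem K_scaled_integrable (L v : ℝ) (hL : 0 < L) :
    Integrable (fun u => L * K (L * (u - v))) := by
  apply Integrable.const_mul
  have h1 : Integrable (fun u => K (L * u)) := K_integrable.comp_mul_left' hL.ne'
  exact h1.comp_sub_right v

/-- Fourier-analytic core. -/
theorem core (b : ℝ → ℝ) (hb : Measurable b) (B : ℝ) (hB : ∀ u, |b u| ≤ B)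
    (h : ℝ × ℝ → ℂ) (hcont : ContinuousOn h {p | 0 ≤ p.1})
    (hh : ∀ ε : ℝ, 0 < ε → ∀ t : ℝ,
      ∫ u in Ioi (0 : ℝ), (b u : ℂ) * Complex.exp (-(ε + 2 * π * t * Complex.I) * u) = h (ε, t))
    (L : ℝ) (hL : 0 < L) :
    Tendsto (fun v : ℝ => ∫ u in Ioi (0 : ℝ), b u * (L * K (L * (u - v)))) atTop (𝓝 0) := by
  have hB0 : 0 ≤ B := (abs_nonneg _).trans (hB 0)
  -- step 1: the limiting identity
  have key : ∀ v : ℝ, ∫ t : ℝ, h (0, t) * (Complex.exp (2 * π * v * t * Complex.I) * (tri L t : ℂ)) =
      ((∫ u in Ioi (0 : ℝ), b u * (L * K (L * (u - v))) : ℝ) : ℂ) := by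
    intro v
    -- left-hand side limit
    have hcomp : IsCompact (Icc (0 : ℝ) 1 ×ˢ Icc (-L) L) := isCompact_Icc.prod isCompact_Icc
    have hsub : Icc (0 : ℝ) 1 ×ˢ Icc (-L) L ⊆ {p : ℝ × ℝ | 0 ≤ p.1} := by
      rintro ⟨x, y⟩ ⟨hx, _⟩
      exact hx.1
    obtain ⟨M, hM⟩ := hcomp.exists_bound_of_continuousOn (hcont.mono hsub)
    have hM' : ∀ ε : ℝ, 0 ≤ ε → ε ≤ 1 → ∀ t : ℝ, ‖h (ε, t) *
        (Complex.exp (2 * π * v * t * Complex.I) * (tri L t : ℂ))‖ ≤ M * tri L t := by
      intro ε hε0 hε1 t
      have hexp : ‖Complex.exp (2 * π * v * t * Complex.I)‖ = 1 := by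
        rw [show (2 * (π : ℂ) * v * t * Complex.I) = ((2 * π * v * t : ℝ) : ℂ) * Complex.I by
          push_cast; ring, Complex.norm_exp_ofReal_mul_I]
      rw [norm_mul, norm_mul, hexp, one_mul, Complex.norm_real, Real.norm_of_nonneg (tri_nonneg L t)]
      rcases le_or_gt L |t| with ht | ht
      · rw [tri_eq_zero hL ht]; simp
      · apply mul_le_mul_of_nonneg_right _ (tri_nonneg L t)
        apply hM
        exact ⟨⟨hε0, hε1⟩, abs_le.mp ht.le⟩
    have hmeas : ∀ ε : ℝ, 0 ≤ ε → Continuous (fun t : ℝ => h (ε, t) *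
        (Complex.exp (2 * π * v * t * Complex.I) * (tri L t : ℂ))) := by
      intro ε hε
      have h1 : Continuous (fun t : ℝ => h (ε, t)) := by
        rw [← continuousOn_univ]
        apply hcont.comp (by fun_prop)
        intro t _
        exact hε
      have h2 := tri_continuous L
      exact h1.mul (by fun_prop)
    have hlim1 : Tendsto (fun ε : ℝ => ∫ t : ℝ, h (ε, t) *
        (Complex.exp (2 * π * v * t * Complex.I) * (tri L t : ℂ))) (𝓝[>] 0)
        (𝓝 (∫ t : ℝ, h (0, t) * (Complex.exp (2 * π * v * t * Complex.I) * (tri L t : ℂ)))) := by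
      apply tendsto_integral_filter_of_dominated_convergence (fun t => M * tri L t)
      · filter_upwards [self_mem_nhdsWithin] with ε hε
        exact (hmeas ε (le_of_lt hε)).aestronglyMeasurable
      · filter_upwards [self_mem_nhdsWithin, Ioo_mem_nhdsGT (zero_lt_one' ℝ)] with ε hε hε1
        filter_upwards with t
        exact hM' ε (le_of_lt hε) hε1.2.le t
      · exact (tri_integrable L hL).const_mul M
      · filter_upwards with t
        apply Tendsto.mul_const
        have h1 : ContinuousWithinAt h {p | 0 ≤ p.1} (0, t) := hcont (0, t) (by simp)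
        have h2 : Tendsto (fun ε : ℝ => ((ε, t) : ℝ × ℝ)) (𝓝[>] 0) (𝓝[{p | 0 ≤ p.1}] (0, t)) := by
          rw [tendsto_nhdsWithin_iff]
          constructor
          · apply Tendsto.mono_left _ nhdsWithin_le_nhds
            have : Continuous (fun ε : ℝ => ((ε, t) : ℝ × ℝ)) := by fun_prop
            exact this.tendsto 0
          · filter_upwards [self_mem_nhdsWithin] with ε hε
            exact le_of_lt hε
        exact h1.tendsto.comp h2
    have hlim2 : Tendsto (fun ε : ℝ => ∫ u in Ioi (0 : ℝ), b u * Real.exp (-ε * u) *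
        (L * K (L * (u - v)))) (𝓝[>] 0)
        (𝓝 (∫ u in Ioi (0 : ℝ), b u * (L * K (L * (u - v))))) := by
      apply tendsto_integral_filter_of_dominated_convergence (fun u => B * (L * K (L * (u - v))))
      · filter_upwards with ε
        apply Measurable.aestronglyMeasurable
        have := K_continuous
        apply Measurable.mul
        · exact hb.mul (by fun_prop)
        · exact Continuous.measurable (by fun_prop)
      · filter_upwards [self_mem_nhdsWithin] with ε hε
        rw [ae_restrict_iff' measurableSet_Ioi]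
        filter_upwards with u hu
        have hKn : 0 ≤ L * K (L * (u - v)) := mul_nonneg hL.le (K_nonneg _)
        rw [norm_mul, norm_mul, Real.norm_of_nonneg hKn]
        apply mul_le_mul_of_nonneg_right _ hKn
        rw [Real.norm_of_nonneg (Real.exp_pos _).le]
        have h3 : Real.exp (-ε * u) ≤ 1 := by
          rw [Real.exp_le_one_iff]
          have : 0 < ε * u := mul_pos hε hu
          linarith
        calc ‖b u‖ * Real.exp (-ε * u) ≤ B * 1 :=
              mul_le_mul (hB u) h3 (Real.exp_pos _).le hB0
          _ = B := mul_one B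
      · exact (K_scaled_integrable L v hL).integrableOn.const_mul B
      · filter_upwards with u
        apply Tendsto.mul_const
        have : Tendsto (fun ε : ℝ => b u * Real.exp (-ε * u)) (𝓝[>] 0)
            (𝓝 (b u * Real.exp (-0 * u))) := by
          apply Tendsto.mono_left _ nhdsWithin_le_nhds
          have hc : Continuous (fun ε : ℝ => b u * Real.exp (-ε * u)) := by fun_prop
          exact hc.tendsto 0
        simpa using this
    have hlim3 := (Complex.continuous_ofReal.tendsto _).comp hlim2
    refine tendsto_nhds_unique hlim1 (hlim3.congr' ?_)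
    filter_upwards [self_mem_nhdsWithin] with ε hε
    have := identity_eps b hb B hB L hL v ε hε
    simp_rw [hh ε hε] at this
    exact this.symm
  -- step 2: Riemann-Lebesgue
  have hRL := Real.tendsto_integral_exp_smul_cocompact (fun t : ℝ => h (0, t) * (tri L t : ℂ))
  have hneg : Tendsto (fun v : ℝ => -v) atTop (cocompact ℝ) :=
    tendsto_neg_atTop_atBot.mono_right atBot_le_cocompact
  have h2 := hRL.comp hneg
  have h3 : Tendsto (fun v : ℝ => ((∫ u in Ioi (0 : ℝ), b u * (L * K (L * (u - v))) : ℝ) : ℂ))
      atTop (𝓝 0) := by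
    refine h2.congr ?_
    intro v
    rw [← key v]
    simp only [Function.comp]
    apply integral_congr_ae
    filter_upwards with t
    rw [Circle.smul_def, Real.fourierChar_apply, smul_eq_mul, mul_left_comm]
    congr 3
    push_cast
    ring
  have h4 := (Complex.continuous_re.tendsto _).comp h3
  simpa [Function.comp_def] using h4

end Pool.Agent.H5.PNT
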