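import Mathlib

/-!
The Fejer kernel and its Fourier transform.
-/

namespace Pool.Agent.H5.PNT

open MeasureTheory Filter Topology Real Set
open scoped FourierTransform

/-- Fejer kernel, as an integral. -/
noncomputable def K (x : ℝ) : ℝ := 2 * ∫ t in (0 : ℝ)..1, (1 - t) * Real.cos (2 * π * x * t)

theorem K_zero : K 0 = 1 := by
  unfold K
  have : ∫ t in (0 : ℝ)..1, (1 - t) * Real.cos (2 * π * 0 * t) = ∫ t in (0 : ℝ)..1, (1 - t) := by
    apply intervalIntegral.integral_congr
    intro t _
    simp
  rw [this]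
  rw [intervalIntegral.integral_sub (by simp) (by simp)]
  simp
  norm_num

theorem K_eq (x : ℝ) (hx : x ≠ 0) : K x = (1 - Real.cos (2 * π * x)) / (2 * π ^ 2 * x ^ 2) := by
  unfold K
  set c : ℝ := 2 * π * x with hc
  have hc0 : c ≠ 0 := by
    rw [hc]; have := Real.pi_ne_zero; positivity
  have h1 : ∫ t in (0 : ℝ)..1, (1 - t) * Real.cos (c * t) =
      (fun t : ℝ => (1 - t) * Real.sin (c * t) / c - Real.cos (c * t) / c ^ 2) 1 -
      (fun t : ℝ => (1 - t) * Real.sin (c * t) / c - Real.cos (c * t) / c ^ 2) 0 := by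
    refine intervalIntegral.integral_eq_sub_of_hasDerivAt
      (f := fun t : ℝ => (1 - t) * Real.sin (c * t) / c - Real.cos (c * t) / c ^ 2) ?_ ?_
    · intro t _
      have hs : HasDerivAt (fun t : ℝ => Real.sin (c * t)) (Real.cos (c * t) * (c * 1)) t :=
        ((hasDerivAt_id t).const_mul c).sin
      have hco : HasDerivAt (fun t : ℝ => Real.cos (c * t)) (-Real.sin (c * t) * (c * 1)) t :=
        ((hasDerivAt_id t).const_mul c).cos
      have h1t : HasDerivAt (fun t : ℝ => (1 - t)) (-1) t := by
        simpa using (hasDerivAt_id t).const_sub 1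
      have := ((h1t.mul hs).div_const c).sub (hco.div_const (c ^ 2))
      refine this.congr_deriv ?_
      field_simp
      ring
    · apply Continuous.intervalIntegrable
      fun_prop
  rw [h1]
  simp only [sub_self, zero_mul, zero_div, mul_one, mul_zero, Real.sin_zero, Real.cos_zero,
    sub_zero]
  rw [hc]
  have := Real.pi_ne_zero
  field_simp
  ring

theorem K_nonneg (x : ℝ) : 0 ≤ K x := by
  rcases eq_or_ne x 0 with rfl | hx
  · rw [K_zero]; norm_num
  · rw [K_eq x hx]
    apply div_nonneg
    · linarith [Real.cos_le_one (2 * π * x)]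
    · positivity

theorem K_neg (x : ℝ) : K (-x) = K x := by
  unfold K
  congr 1
  apply intervalIntegral.integral_congr
  intro t _
  simp only
  rw [show 2 * π * -x * t = -(2 * π * x * t) by ring, Real.cos_neg]

theorem K_le_one (x : ℝ) : K x ≤ 1 := by
  have h0 : ∫ t in (0 : ℝ)..1, (1 - t) = 1 / 2 := by
    rw [intervalIntegral.integral_sub (by simp) (by simp)]
    simp
    norm_num
  unfold K
  have h1 : ∫ t in (0 : ℝ)..1, (1 - t) * Real.cos (2 * π * x * t) ≤ ∫ t in (0 : ℝ)..1, (1 - t) := by
    apply intervalIntegral.integral_mono_on (by norm_num)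
    · apply Continuous.intervalIntegrable; fun_prop
    · apply Continuous.intervalIntegrable; fun_prop
    · intro t ht
      have h2 : 0 ≤ 1 - t := by linarith [ht.2]
      have h3 := Real.cos_le_one (2 * π * x * t)
      nlinarith
  linarith

theorem K_le (x : ℝ) : K x ≤ 2 * (1 + x ^ 2)⁻¹ := by
  rw [← div_eq_mul_inv, le_div_iff₀ (by positivity)]
  rcases le_or_gt (x ^ 2) 1 with h | h
  · have := K_le_one x
    have := K_nonneg x
    nlinarith
  · have hx : x ≠ 0 := by rintro rfl; norm_num at h
    rw [K_eq x hx, div_mul_eq_mul_div, div_le_iff₀ (by positivity)]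
    have h1 := Real.neg_one_le_cos (2 * π * x)
    have h2 : (3 : ℝ) < π := Real.pi_gt_three
    have h3 : (9 : ℝ) < π ^ 2 := by nlinarith
    nlinarith [Real.cos_le_one (2 * π * x)]

/-- triangle function -/
noncomputable def tri (L t : ℝ) : ℝ := max 0 (1 - |t| / L)

theorem tri_continuous (L : ℝ) : Continuous (tri L) := by
  unfold tri; fun_prop

theorem tri_nonneg (L t : ℝ) : 0 ≤ tri L t := le_max_left _ _

theorem tri_eq_zero {L t : ℝ} (hL : 0 < L) (h : L ≤ |t|) : tri L t = 0 := by
  unfold tri
  apply max_eq_left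
  have : 1 ≤ |t| / L := by rwa [le_div_iff₀ hL, one_mul]
  linarith

theorem tri_compact (L : ℝ) (hL : 0 < L) : HasCompactSupport (tri L) := by
  apply HasCompactSupport.intro (K := Icc (-L) L) isCompact_Icc
  intro t ht
  apply tri_eq_zero hL
  by_contra h
  push Not at h
  exact ht (abs_le.mp h.le)

theorem tri_integrable (L : ℝ) (hL : 0 < L) : Integrable (tri L) :=
  (tri_continuous L).integrable_of_hasCompactSupport (tri_compact L hL)

theorem fourier_tri (L : ℝ) (hL : 0 < L) (x : ℝ) :
    𝓕 (fun t => ((tri L t : ℝ) : ℂ)) x = ((L * K (L * x) : ℝ) : ℂ) := by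
  rw [Real.fourier_real_eq_integral_exp_smul]
  have hint : Integrable (fun v : ℝ => Complex.exp (((-2 * π * v * x : ℝ) : ℂ) * Complex.I) •
      ((tri L v : ℝ) : ℂ)) := by
    have h1 : Integrable (fun t => ((tri L t : ℝ) : ℂ)) := (tri_integrable L hL).ofReal
    apply h1.mono
    · apply Continuous.aestronglyMeasurable
      have := tri_continuous L
      fun_prop
    · filter_upwards with v
      rw [norm_smul, Complex.norm_exp_ofReal_mul_I, one_mul]
  have hsplit : ∫ v : ℝ, Complex.exp (((-2 * π * v * x : ℝ) : ℂ) * Complex.I) •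
      ((tri L v : ℝ) : ℂ) = ∫ v in Ioi (0 : ℝ), ((2 * (Real.cos (2 * π * x * v) * tri L v) : ℝ) : ℂ) := by
    rw [← intervalIntegral.integral_Iic_add_Ioi hint.integrableOn hint.integrableOn (b := 0)]
    have hneg := integral_comp_neg_Ioi (0 : ℝ)
      (fun v : ℝ => Complex.exp (((-2 * π * v * x : ℝ) : ℂ) * Complex.I) • ((tri L v : ℝ) : ℂ))
    rw [neg_zero] at hneg
    rw [← hneg, ← integral_add]
    · apply setIntegral_congr_fun measurableSet_Ioi
      intro v _
      simp only
      have htri : tri L (-v) = tri L v := by unfold tri; rw [abs_neg]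
      rw [htri, smul_eq_mul, smul_eq_mul, ← add_mul]
      push_cast
      rw [← mul_assoc]
      congr 1
      rw [Complex.two_cos]
      congr 1
      · congr 1; ring
      · congr 1; ring
    · exact (hint.comp_neg).integrableOn
    · exact hint.integrableOn
  rw [hsplit, integral_complex_ofReal]
  congr 1
  have h2 : ∫ v in Ioi (0 : ℝ), 2 * (Real.cos (2 * π * x * v) * tri L v) =
      ∫ v in (0 : ℝ)..L, 2 * (Real.cos (2 * π * x * v) * (1 - v / L)) := by
    rw [intervalIntegral.integral_of_le hL.le]
    have h3 : ∫ v in Ioi (0 : ℝ), 2 * (Real.cos (2 * π * x * v) * tri L v) =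
        ∫ v in Ioc (0 : ℝ) L, 2 * (Real.cos (2 * π * x * v) * tri L v) := by
      apply setIntegral_eq_of_subset_of_forall_diff_eq_zero measurableSet_Ioi
      · exact Ioc_subset_Ioi_self
      · intro v hv
        have : L ≤ |v| := by
          by_contra hlt
          push Not at hlt
          apply hv.2
          exact ⟨hv.1, (le_abs_self v).trans hlt.le⟩
        rw [tri_eq_zero hL this]
        ring
    rw [h3]
    apply setIntegral_congr_fun measurableSet_Ioc
    intro v hv
    simp only
    have : tri L v = 1 - v / L := by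
      unfold tri
      rw [abs_of_pos hv.1, max_eq_right]
      have : v / L ≤ 1 := by rw [div_le_one hL]; exact hv.2
      linarith
    rw [this]
  rw [h2]
  unfold K
  have h4 := intervalIntegral.mul_integral_comp_mul_left
    (f := fun v : ℝ => 2 * (Real.cos (2 * π * x * v) * (1 - v / L))) (a := 0) (b := 1) (c := L)
  simp only [mul_zero, mul_one] at h4
  rw [← h4]
  congr 1
  rw [← intervalIntegral.integral_const_mul]
  apply intervalIntegral.integral_congr
  intro t _
  simp only
  rw [mul_div_cancel_left₀ _ hL.ne']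
  rw [show 2 * π * x * (L * t) = 2 * π * (L * x) * t by ring]
  ring

end Pool.Agent.H5.PNT
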