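import Pool.Agent.H5.PNT.Core

/-!
The Tauberian step.
-/

namespace Pool.Agent.H5.PNT

open MeasureTheory Filter Topology Real Set

theorem scaled_interval (L v d : ℝ) :
    ∫ u in (v - d)..(v + d), L * K (L * (u - v)) = ∫ x in (-(L * d))..(L * d), K x := by
  rw [intervalIntegral.integral_comp_sub_right (fun u => L * K (L * u)) v,
    intervalIntegral.integral_const_mul, intervalIntegral.mul_integral_comp_mul_left]
  congr 1 <;> ring

theorem scaled_total (L v : ℝ) (hL : 0 < L) :
    ∫ u, L * K (L * (u - v)) = ∫ x, K x := by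
  rw [integral_sub_right_eq_self (fun u => L * K (L * u)) v, integral_const_mul,
    Measure.integral_comp_mul_left, abs_of_pos (inv_pos.mpr hL), smul_eq_mul]
  field_simp

theorem tendsto_kappa (η : ℝ) (hη : 0 < η) :
    Tendsto (fun L : ℝ => ∫ x in (-(L * (η / 2)))..(L * (η / 2)), K x) atTop (𝓝 (∫ x, K x)) := by
  apply intervalIntegral_tendsto_integral K_integrable
  · apply tendsto_neg_atTop_atBot.comp
    exact tendsto_id.atTop_mul_const (by positivity)
  · exact tendsto_id.atTop_mul_const (by positivity)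

theorem aK_integrable (a : ℝ → ℝ) (ha : Measurable a) (C : ℝ) (haC : ∀ u, |a u| ≤ C)
    (L v : ℝ) (hL : 0 < L) : Integrable (fun u => a u * (L * K (L * (u - v)))) := by
  have h1 := (K_scaled_integrable L v hL).const_mul C
  apply h1.mono
  · have := K_continuous
    exact (ha.mul (Continuous.measurable (by fun_prop))).aestronglyMeasurable
  · filter_upwards with u
    rw [norm_mul, norm_mul C]
    have : ‖a u‖ ≤ ‖C‖ := (haC u).trans (le_abs_self C)
    gcongr

theorem upper_step (a : ℝ → ℝ) (ha : Measurable a) (C A : ℝ) (hA : 0 ≤ A) (ha0 : ∀ u, 0 ≤ a u)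
    (haC : ∀ u, a u ≤ C) (hmono : ∀ u v : ℝ, u ≤ v → a u * Real.exp u ≤ a v * Real.exp v)
    (L η v : ℝ) (hL : 0 < L) (hη : 0 < η) (hv : 0 < v) :
    a v * Real.exp (-η) * (∫ x in (-(L * (η / 2)))..(L * (η / 2)), K x) ≤
      A * (∫ x, K x) + ∫ u in Ioi (0 : ℝ), (a u - A) * (L * K (L * (u - (v + η / 2)))) := by
  set w := v + η / 2 with hw
  have hC : ∀ u, |a u| ≤ C := fun u => by rw [abs_of_nonneg (ha0 u)]; exact haC u
  have hi1 := (aK_integrable a ha C hC L w hL)
  have hi2 := (K_scaled_integrable L w hL)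
  have hKn : ∀ u, 0 ≤ L * K (L * (u - w)) := fun u => mul_nonneg hL.le (K_nonneg _)
  have e1 : ∫ u in Ioi (0 : ℝ), (a u - A) * (L * K (L * (u - w))) =
      (∫ u in Ioi (0 : ℝ), a u * (L * K (L * (u - w)))) -
      A * ∫ u in Ioi (0 : ℝ), L * K (L * (u - w)) := by
    rw [← integral_const_mul, ← integral_sub hi1.integrableOn (hi2.const_mul A).integrableOn]
    congr 1
    funext u
    ring
  have e2 : ∫ u in Ioi (0 : ℝ), L * K (L * (u - w)) ≤ ∫ x, K x := by
    rw [← scaled_total L w hL]
    exact setIntegral_le_integral hi2 (Eventually.of_forall hKn)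
  have e3 : a v * Real.exp (-η) * (∫ x in (-(L * (η / 2)))..(L * (η / 2)), K x) ≤
      ∫ u in Ioi (0 : ℝ), a u * (L * K (L * (u - w))) := by
    rw [← scaled_interval L w, ← intervalIntegral.integral_const_mul]
    have hle : w - η / 2 ≤ w + η / 2 := by linarith
    rw [intervalIntegral.integral_of_le hle]
    have hsub : Ioc (w - η / 2) (w + η / 2) ⊆ Ioi 0 := by
      intro u hu
      have := hu.1
      rw [mem_Ioi]
      linarith
    calc ∫ u in Ioc (w - η / 2) (w + η / 2), a v * Real.exp (-η) * (L * K (L * (u - w)))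
        ≤ ∫ u in Ioc (w - η / 2) (w + η / 2), a u * (L * K (L * (u - w))) := by
          apply setIntegral_mono_on (hi2.const_mul _).integrableOn hi1.integrableOn
            measurableSet_Ioc
          intro u hu
          apply mul_le_mul_of_nonneg_right _ (hKn u)
          have h1 : v ≤ u := by have := hu.1; linarith
          have h2 : u ≤ v + η := by have := hu.2; linarith
          have h3 := hmono v u h1
          have h4 : a v * Real.exp (v - u) ≤ a u := by
            rw [Real.exp_sub, mul_div_assoc', div_le_iff₀ (Real.exp_pos u)]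
            exact h3
          refine le_trans ?_ h4
          apply mul_le_mul_of_nonneg_left _ (ha0 v)
          rw [Real.exp_le_exp]
          linarith
      _ ≤ ∫ u in Ioi (0 : ℝ), a u * (L * K (L * (u - w))) := by
          apply setIntegral_mono_set hi1.integrableOn
          · filter_upwards with u
            exact mul_nonneg (ha0 u) (hKn u)
          · exact hsub.eventuallyLE
  have e4 : A * ∫ u in Ioi (0 : ℝ), L * K (L * (u - w)) ≤ A * ∫ x, K x :=
    mul_le_mul_of_nonneg_left e2 hA
  linarith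

theorem lower_step (a : ℝ → ℝ) (ha : Measurable a) (C A : ℝ) (hA : 0 ≤ A) (ha0 : ∀ u, 0 ≤ a u)
    (haC : ∀ u, a u ≤ C) (hmono : ∀ u v : ℝ, u ≤ v → a u * Real.exp u ≤ a v * Real.exp v)
    (L η v : ℝ) (hL : 0 < L) (hη : 0 < η) (hv : η < v) :
    A * (∫ x in (-(L * (η / 2)))..(L * (η / 2)), K x) +
      (∫ u in Ioi (0 : ℝ), (a u - A) * (L * K (L * (u - (v - η / 2))))) ≤
      a v * Real.exp η * (∫ x, K x) +
        C * ((∫ x, K x) - ∫ x in (-(L * (η / 2)))..(L * (η / 2)), K x) := by
  set w := v - η / 2 with hw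
  have hC : ∀ u, |a u| ≤ C := fun u => by rw [abs_of_nonneg (ha0 u)]; exact haC u
  have hC0 : 0 ≤ C := (ha0 0).trans (haC 0)
  have hi1 := (aK_integrable a ha C hC L w hL)
  have hi2 := (K_scaled_integrable L w hL)
  have hKn : ∀ u, 0 ≤ L * K (L * (u - w)) := fun u => mul_nonneg hL.le (K_nonneg _)
  have hle : w - η / 2 ≤ w + η / 2 := by linarith
  have hint : ∫ x in (-(L * (η / 2)))..(L * (η / 2)), K x =
      ∫ u in Ioc (w - η / 2) (w + η / 2), L * K (L * (u - w)) := by
    rw [← scaled_interval L w, intervalIntegral.integral_of_le hle]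
  have e1 : ∫ u in Ioi (0 : ℝ), (a u - A) * (L * K (L * (u - w))) =
      (∫ u in Ioi (0 : ℝ), a u * (L * K (L * (u - w)))) -
      A * ∫ u in Ioi (0 : ℝ), L * K (L * (u - w)) := by
    rw [← integral_const_mul, ← integral_sub hi1.integrableOn (hi2.const_mul A).integrableOn]
    congr 1
    funext u
    ring
  have hsub : Ioc (w - η / 2) (w + η / 2) ⊆ Ioi 0 := by
    intro u hu
    have := hu.1
    rw [mem_Ioi]
    linarith
  have e2 : ∫ u in Ioc (w - η / 2) (w + η / 2), L * K (L * (u - w)) ≤
      ∫ u in Ioi (0 : ℝ), L * K (L * (u - w)) := by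
    apply setIntegral_mono_set hi2.integrableOn
    · filter_upwards with u
      exact hKn u
    · exact hsub.eventuallyLE
  have e3 : ∫ u in Ioi (0 : ℝ), a u * (L * K (L * (u - w))) ≤
      ∫ u, a u * (L * K (L * (u - w))) :=
    setIntegral_le_integral hi1 (Eventually.of_forall fun u => mul_nonneg (ha0 u) (hKn u))
  have e4 : ∫ u, a u * (L * K (L * (u - w))) =
      (∫ u in Ioc (w - η / 2) (w + η / 2), a u * (L * K (L * (u - w)))) +
      ∫ u in (Ioc (w - η / 2) (w + η / 2))ᶜ, a u * (L * K (L * (u - w))) :=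
    (integral_add_compl measurableSet_Ioc hi1).symm
  have e5 : ∫ u in Ioc (w - η / 2) (w + η / 2), a u * (L * K (L * (u - w))) ≤
      a v * Real.exp η * ∫ u in Ioc (w - η / 2) (w + η / 2), L * K (L * (u - w)) := by
    rw [← integral_const_mul]
    apply setIntegral_mono_on hi1.integrableOn (hi2.const_mul _).integrableOn measurableSet_Ioc
    intro u hu
    apply mul_le_mul_of_nonneg_right _ (hKn u)
    have h1 : u ≤ v := by have := hu.2; linarith
    have h2 : v - η ≤ u := by have := hu.1; linarith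
    have h3 := hmono u v h1
    have h4 : a u ≤ a v * Real.exp (v - u) := by
      rw [Real.exp_sub, mul_div_assoc', le_div_iff₀ (Real.exp_pos u)]
      exact h3
    refine h4.trans ?_
    apply mul_le_mul_of_nonneg_left _ (ha0 v)
    rw [Real.exp_le_exp]
    linarith
  have e6 : ∫ u in (Ioc (w - η / 2) (w + η / 2))ᶜ, a u * (L * K (L * (u - w))) ≤
      C * ∫ u in (Ioc (w - η / 2) (w + η / 2))ᶜ, L * K (L * (u - w)) := by
    rw [← integral_const_mul]
    apply setIntegral_mono hi1.integrableOn (hi2.const_mul _).integrableOn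
    intro u
    exact mul_le_mul_of_nonneg_right (haC u) (hKn u)
  have e7 : (∫ u in Ioc (w - η / 2) (w + η / 2), L * K (L * (u - w))) +
      ∫ u in (Ioc (w - η / 2) (w + η / 2))ᶜ, L * K (L * (u - w)) = ∫ x, K x := by
    rw [integral_add_compl measurableSet_Ioc hi2, scaled_total L w hL]
  have e8 : ∫ u in Ioc (w - η / 2) (w + η / 2), L * K (L * (u - w)) ≤ ∫ x, K x := by
    rw [← scaled_total L w hL]
    exact setIntegral_le_integral hi2 (Eventually.of_forall hKn)
  have e9 := mul_le_mul_of_nonneg_left e2 hA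
  have e10 : a v * Real.exp η * ∫ u in Ioc (w - η / 2) (w + η / 2), L * K (L * (u - w)) ≤
      a v * Real.exp η * ∫ x, K x :=
    mul_le_mul_of_nonneg_left e8 (mul_nonneg (ha0 v) (Real.exp_pos _).le)
  rw [hint]
  have e11 : C * ∫ u in (Ioc (w - η / 2) (w + η / 2))ᶜ, L * K (L * (u - w)) =
      C * ((∫ x, K x) - ∫ u in Ioc (w - η / 2) (w + η / 2), L * K (L * (u - w))) := by
    rw [← e7]; ring
  linarith

theorem tauberian (a : ℝ → ℝ) (ha : Measurable a) (C A : ℝ) (hA : 0 ≤ A) (ha0 : ∀ u, 0 ≤ a u)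
    (haC : ∀ u, a u ≤ C) (hmono : ∀ u v : ℝ, u ≤ v → a u * Real.exp u ≤ a v * Real.exp v)
    (hlim : ∀ L : ℝ, 0 < L →
      Tendsto (fun v => ∫ u in Ioi (0 : ℝ), (a u - A) * (L * K (L * (u - v)))) atTop (𝓝 0)) :
    Tendsto a atTop (𝓝 A) := by
  set κ := ∫ x, K x with hκ
  have hκ0 : 0 < κ := integral_K_pos
  rw [tendsto_order]
  constructor
  · intro A' hA'
    -- choose η
    have h1 : Tendsto (fun η : ℝ => Real.exp (-η) * A) (𝓝[>] 0) (𝓝 (Real.exp (-0) * A)) := by
      apply Tendsto.mono_left _ nhdsWithin_le_nhds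
      have : Continuous (fun η : ℝ => Real.exp (-η) * A) := by fun_prop
      exact this.tendsto 0
    rw [neg_zero, Real.exp_zero, one_mul] at h1
    obtain ⟨η, hη1, hη2⟩ := ((h1.eventually (lt_mem_nhds hA')).and self_mem_nhdsWithin).exists
    -- choose L
    have h2 : Tendsto (fun L : ℝ => Real.exp (-η) *
        ((A * (∫ x in (-(L * (η / 2)))..(L * (η / 2)), K x) -
          C * (κ - ∫ x in (-(L * (η / 2)))..(L * (η / 2)), K x)) / κ)) atTop
        (𝓝 (Real.exp (-η) * ((A * κ - C * (κ - κ)) / κ))) := by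
      have := tendsto_kappa η hη2
      exact (((this.const_mul A).sub ((this.const_sub κ).const_mul C)).div_const κ).const_mul _
    have h2' : Real.exp (-η) * ((A * κ - C * (κ - κ)) / κ) = Real.exp (-η) * A := by
      field_simp
      ring
    rw [h2'] at h2
    obtain ⟨L, hL1, hL2⟩ := ((h2.eventually (lt_mem_nhds hη1)).and (eventually_gt_atTop 0)).exists
    -- limit in v
    have h3 : Tendsto (fun v : ℝ => Real.exp (-η) *
        ((A * (∫ x in (-(L * (η / 2)))..(L * (η / 2)), K x) +
          (∫ u in Ioi (0 : ℝ), (a u - A) * (L * K (L * (u - (v - η / 2))))) -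
          C * (κ - ∫ x in (-(L * (η / 2)))..(L * (η / 2)), K x)) / κ)) atTop
        (𝓝 (Real.exp (-η) * ((A * (∫ x in (-(L * (η / 2)))..(L * (η / 2)), K x) + 0 -
          C * (κ - ∫ x in (-(L * (η / 2)))..(L * (η / 2)), K x)) / κ))) := by
      have hv : Tendsto (fun v : ℝ => v - η / 2) atTop atTop :=
        tendsto_atTop_add_const_right _ _ tendsto_id
      have := (hlim L hL2).comp hv
      exact ((((this.const_add _).sub_const _).div_const κ).const_mul _)
    rw [add_zero] at h3
    filter_upwards [h3.eventually (lt_mem_nhds hL1), eventually_gt_atTop η] with v hv1 hv2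
    refine lt_of_lt_of_le hv1 ?_
    have h4 := lower_step a ha C A hA ha0 haC hmono L η v hL2 hη2 hv2
    rw [mul_div_assoc', div_le_iff₀ hκ0, Real.exp_neg, inv_mul_le_iff₀ (Real.exp_pos η)]
    linarith
  · intro A' hA'
    have h1 : Tendsto (fun η : ℝ => Real.exp η * A) (𝓝[>] 0) (𝓝 (Real.exp 0 * A)) := by
      apply Tendsto.mono_left _ nhdsWithin_le_nhds
      have : Continuous (fun η : ℝ => Real.exp η * A) := by fun_prop
      exact this.tendsto 0
    rw [Real.exp_zero, one_mul] at h1
    obtain ⟨η, hη1, hη2⟩ := ((h1.eventually (gt_mem_nhds hA')).and self_mem_nhdsWithin).exists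
    have h2 : Tendsto (fun L : ℝ => Real.exp η *
        (A * κ / (∫ x in (-(L * (η / 2)))..(L * (η / 2)), K x))) atTop
        (𝓝 (Real.exp η * (A * κ / κ))) := by
      have := tendsto_kappa η hη2
      exact (tendsto_const_nhds.div this hκ0.ne').const_mul _
    rw [mul_div_assoc, div_self hκ0.ne', mul_one] at h2
    obtain ⟨L, ⟨hL1, hL3⟩, hL2⟩ := (((h2.eventually (gt_mem_nhds hη1)).and
      ((tendsto_kappa η hη2).eventually (lt_mem_nhds hκ0))).and (eventually_gt_atTop 0)).exists
    have h3 : Tendsto (fun v : ℝ => Real.exp η *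
        ((A * κ + (∫ u in Ioi (0 : ℝ), (a u - A) * (L * K (L * (u - (v + η / 2)))))) /
          (∫ x in (-(L * (η / 2)))..(L * (η / 2)), K x))) atTop
        (𝓝 (Real.exp η * ((A * κ + 0) / (∫ x in (-(L * (η / 2)))..(L * (η / 2)), K x)))) := by
      have hv : Tendsto (fun v : ℝ => v + η / 2) atTop atTop :=
        tendsto_atTop_add_const_right _ _ tendsto_id
      have := (hlim L hL2).comp hv
      exact ((((this.const_add _)).div_const _).const_mul _)
    rw [add_zero] at h3
    filter_upwards [h3.eventually (gt_mem_nhds hL1), eventually_gt_atTop 0] with v hv1 hv2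
    refine lt_of_le_of_lt ?_ hv1
    have h4 := upper_step a ha C A hA ha0 haC hmono L η v hL2 hη2 hv2
    rw [mul_div_assoc', le_div_iff₀ hL3]
    have h5 : Real.exp η * (a v * Real.exp (-η) * (∫ x in (-(L * (η / 2)))..(L * (η / 2)), K x)) =
        a v * (∫ x in (-(L * (η / 2)))..(L * (η / 2)), K x) := by
      have : Real.exp η * Real.exp (-η) = 1 := by rw [← Real.exp_add]; simp
      linear_combination (a v * (∫ x in (-(L * (η / 2)))..(L * (η / 2)), K x)) * this
    rw [← h5]
    exact mul_le_mul_of_nonneg_left h4 (Real.exp_pos _).le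

end Pool.Agent.H5.PNT
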