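import Pool.Agent.H5.PNT.Tauber

/-!
The Wiener-Ikehara theorem for Dirichlet series with nonnegative coefficients whose partial sums
are `O(n)`.
-/

namespace Pool.Agent.H5.PNT

open MeasureTheory Filter Topology Real Set

/-- summatory function -/
noncomputable def S (f : ℕ → ℝ) (x : ℝ) : ℝ := ∑ k ∈ Finset.Icc 1 ⌊x⌋₊, f k

theorem S_mono (f : ℕ → ℝ) (hf : ∀ n, 0 ≤ f n) : Monotone (S f) := by
  intro x y hxy
  unfold S
  apply Finset.sum_le_sum_of_subset_of_nonneg
  · exact Finset.Icc_subset_Icc le_rfl (Nat.floor_mono hxy)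
  · intro i _ _; exact hf i

theorem S_nonneg (f : ℕ → ℝ) (hf : ∀ n, 0 ≤ f n) (x : ℝ) : 0 ≤ S f x :=
  Finset.sum_nonneg fun i _ => hf i

theorem integral_exp (s : ℂ) (f : ℕ → ℝ) :
    ∫ t in Ioi (1 : ℝ), (∑ k ∈ Finset.Icc 1 ⌊t⌋₊, (f k : ℂ)) * (t : ℂ) ^ (-(s + 1)) =
    ∫ u in Ioi (0 : ℝ), ((S f (Real.exp u) * Real.exp (-u) : ℝ) : ℂ) *
      Complex.exp (-(s - 1) * u) := by
  have himg : Real.exp '' Ioi 0 = Ioi 1 := by
    ext y
    constructor
    · rintro ⟨x, hx, rfl⟩
      exact Real.one_lt_exp_iff.mpr hx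
    · intro hy
      exact ⟨Real.log y, Real.log_pos hy, Real.exp_log (lt_trans one_pos hy)⟩
  rw [← himg, integral_image_eq_integral_abs_deriv_smul measurableSet_Ioi
    (fun x _ => (Real.hasDerivAt_exp x).hasDerivWithinAt) (Real.exp_injective.injOn)]
  apply setIntegral_congr_fun measurableSet_Ioi
  intro u _
  simp only
  rw [abs_of_pos (Real.exp_pos u), Complex.real_smul]
  have h1 : ((Real.exp u : ℝ) : ℂ) ^ (-(s + 1)) = Complex.exp (-(s + 1) * u) := by
    rw [Complex.cpow_def_of_ne_zero (by exact_mod_cast (Real.exp_pos u).ne')]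
    rw [← Complex.ofReal_log (Real.exp_pos u).le, Real.log_exp]
    congr 1; ring
  rw [h1]
  unfold S
  push_cast
  rw [mul_left_comm, mul_assoc, ← Complex.exp_add, ← Complex.exp_add]
  congr 2
  ring

theorem wiener_ikehara (f : ℕ → ℝ) (hf : ∀ n, 0 ≤ f n) (C : ℝ)
    (hC : ∀ n : ℕ, ∑ k ∈ Finset.Icc 1 n, f k ≤ C * n)
    (A : ℝ) (hA : 0 ≤ A) (G : ℂ → ℂ) (hG : ContinuousOn G {s | 1 ≤ s.re})
    (hGf : Set.EqOn G (fun s => LSeries (fun n => (f n : ℂ)) s - A / (s - 1)) {s | 1 < s.re}) :
    Tendsto (fun x : ℝ => (∑ k ∈ Finset.Icc 1 ⌊x⌋₊, f k) / x) atTop (𝓝 A) := by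
  have hC0 : 0 ≤ C := by
    have h1 := hC 1
    have h2 : 0 ≤ ∑ k ∈ Finset.Icc 1 1, f k := Finset.sum_nonneg fun i _ => hf i
    push_cast at h1
    linarith
  set a : ℝ → ℝ := fun u => S f (Real.exp u) * Real.exp (-u) with ha
  have ha0 : ∀ u, 0 ≤ a u := fun u => mul_nonneg (S_nonneg f hf _) (Real.exp_pos _).le
  have hSle : ∀ x : ℝ, 0 ≤ x → S f x ≤ C * x := by
    intro x hx
    refine (hC ⌊x⌋₊).trans ?_
    exact mul_le_mul_of_nonneg_left (Nat.floor_le hx) hC0
  have haC : ∀ u, a u ≤ C := by
    intro u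
    rw [ha]
    simp only
    calc S f (Real.exp u) * Real.exp (-u) ≤ (C * Real.exp u) * Real.exp (-u) :=
          mul_le_mul_of_nonneg_right (hSle _ (Real.exp_pos u).le) (Real.exp_pos _).le
      _ = C := by rw [mul_assoc, ← Real.exp_add]; simp
  have hmono : ∀ u v : ℝ, u ≤ v → a u * Real.exp u ≤ a v * Real.exp v := by
    intro u v huv
    rw [ha]
    simp only
    rw [mul_assoc, ← Real.exp_add, mul_assoc, ← Real.exp_add]
    simp only [neg_add_cancel, Real.exp_zero, mul_one]
    exact S_mono f hf (Real.exp_le_exp.mpr huv)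
  have hmeas : Measurable a := by
    apply Measurable.mul
    · exact ((S_mono f hf).comp Real.exp_monotone).measurable
    · fun_prop
  -- the transform
  set h : ℝ × ℝ → ℂ := fun p => (G (1 + p.1 + 2 * π * p.2 * Complex.I) - A) /
    (1 + p.1 + 2 * π * p.2 * Complex.I) with hh
  have hre : ∀ p : ℝ × ℝ, (1 + (p.1 : ℂ) + 2 * π * p.2 * Complex.I).re = 1 + p.1 := by
    intro p
    simp
  have hcont : ContinuousOn h {p | 0 ≤ p.1} := by
    rw [hh]
    apply ContinuousOn.div
    · apply ContinuousOn.sub _ continuousOn_const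
      apply hG.comp
      · apply Continuous.continuousOn
        fun_prop
      · intro p hp
        simp only [mem_setOf_eq] at hp ⊢
        rw [hre]
        linarith
    · apply Continuous.continuousOn
      fun_prop
    · intro p hp h0
      simp only [mem_setOf_eq] at hp
      have := congrArg Complex.re h0
      rw [hre] at this
      simp at this
      linarith
  have hO : (fun n => ∑ k ∈ Finset.Icc 1 n, f k) =O[atTop] fun n : ℕ => (n : ℝ) ^ (1 : ℝ) := by
    apply Asymptotics.IsBigO.of_bound C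
    filter_upwards with n
    rw [Real.rpow_one, Real.norm_of_nonneg (Finset.sum_nonneg fun i _ => hf i),
      Real.norm_of_nonneg (Nat.cast_nonneg n)]
    exact hC n
  have htrans : ∀ ε : ℝ, 0 < ε → ∀ t : ℝ,
      ∫ u in Ioi (0 : ℝ), ((a u - A : ℝ) : ℂ) *
        Complex.exp (-(ε + 2 * π * t * Complex.I) * u) = h (ε, t) := by
    intro ε hε t
    set s : ℂ := 1 + ε + 2 * π * t * Complex.I with hs
    have hsre : s.re = 1 + ε := hre (ε, t)
    have hs1 : 1 < s.re := by rw [hsre]; linarith
    have hs0 : s ≠ 0 := by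
      intro h0
      rw [h0] at hs1
      simp at hs1
      linarith
    have hsub : s - 1 ≠ 0 := by
      intro h0
      have := congrArg Complex.re h0
      rw [Complex.sub_re, hsre] at this
      simp at this
      linarith
    have hL := LSeries_eq_mul_integral_of_nonneg f zero_le_one (s := s) hs1 hO hf
    rw [integral_exp s f] at hL
    have hexp : -((ε : ℂ) + 2 * π * t * Complex.I) = -(s - 1) := by rw [hs]; ring
    rw [hexp]
    have hI2 : ∫ u in Ioi (0 : ℝ), Complex.exp (-(s - 1) * u) = 1 / (s - 1) := by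
      rw [integral_exp_mul_complex_Ioi (by rw [Complex.neg_re, Complex.sub_re, hsre]; simpa using hε)]
      simp
      rw [← neg_sub s 1, neg_div_neg_eq, one_div]
    have hexpint : IntegrableOn (fun u : ℝ => Complex.exp (-(s - 1) * u)) (Ioi 0) := by
      have h1 : IntegrableOn (fun x : ℝ => Real.exp (-ε * x)) (Ioi 0) :=
        exp_neg_integrableOn_Ioi 0 hε
      refine Integrable.mono (show Integrable _ (volume.restrict _) from h1) ?_ ?_
      · apply Continuous.aestronglyMeasurable
        fun_prop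
      · filter_upwards with u
        rw [Complex.norm_exp, Real.norm_of_nonneg (Real.exp_pos _).le]
        apply le_of_eq
        congr 1
        simp [hsre]
    have haint : IntegrableOn (fun u : ℝ => ((a u : ℝ) : ℂ) * Complex.exp (-(s - 1) * u)) (Ioi 0) := by
      refine Integrable.bdd_mul (c := C) (show Integrable _ (volume.restrict _) from hexpint) ?_ ?_
      · exact (Complex.measurable_ofReal.comp hmeas).aestronglyMeasurable
      · filter_upwards with u
        rw [Complex.norm_real, Real.norm_of_nonneg (ha0 u)]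
        exact haC u
    have hsplit : ∫ u in Ioi (0 : ℝ), ((a u - A : ℝ) : ℂ) * Complex.exp (-(s - 1) * u) =
        (∫ u in Ioi (0 : ℝ), ((a u : ℝ) : ℂ) * Complex.exp (-(s - 1) * u)) -
        A * ∫ u in Ioi (0 : ℝ), Complex.exp (-(s - 1) * u) := by
      rw [← integral_const_mul, ← integral_sub haint (hexpint.const_mul _)]
      apply setIntegral_congr_fun measurableSet_Ioi
      intro u _
      simp only
      push_cast
      ring
    rw [hsplit, hI2]
    have hint : ∫ u in Ioi (0 : ℝ), ((a u : ℝ) : ℂ) * Complex.exp (-(s - 1) * u) =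
        LSeries (fun n => (f n : ℂ)) s / s := by
      rw [hL, mul_div_cancel_left₀ _ hs0]
    rw [hint]
    have hGs := hGf hs1
    simp only at hGs
    have hh' : h (ε, t) = (G s - A) / s := rfl
    rw [hh', hGs]
    field_simp
    ring
  have hbmeas : Measurable (fun u => a u - A) := hmeas.sub_const A
  have hbB : ∀ u, |a u - A| ≤ C + A := by
    intro u
    rw [abs_le]
    constructor
    · linarith [ha0 u]
    · linarith [haC u]
  have hlim : ∀ L : ℝ, 0 < L →
      Tendsto (fun v => ∫ u in Ioi (0 : ℝ), (a u - A) * (L * K (L * (u - v)))) atTop (𝓝 0) :=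
    fun L hL => core (fun u => a u - A) hbmeas (C + A) hbB h hcont htrans L hL
  have hfin := tauberian a hmeas C A hA ha0 haC hmono hlim
  have h2 := hfin.comp Real.tendsto_log_atTop
  refine h2.congr' ?_
  filter_upwards [eventually_gt_atTop 0] with x hx
  simp only [Function.comp, ha]
  rw [Real.exp_neg, Real.exp_log hx]
  rfl

end Pool.Agent.H5.PNT
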